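import Pool.Agent.H.MP_4a8797_al.B

set_option autoImplicit false

namespace Pool.Agent.H.MP_e13a39_al

open SemidirectProduct MP_4a8797_al
open scoped commutatorElement

abbrev KB (k : ℕ) := KK (HB (k + 2)) (wB (k + 2))

theorem p2k (k : ℕ) : P2 (KB k) :=
  (((p2z 1).fn _).of ((p2z 1).fn _) card_cx).of (p2g _) SemidirectProduct.card

noncomputable def EE : ℕ → ℕ
  | 0 => 1
  | k + 1 => EE k * Nat.card (Wr (Multiplicative (ZMod (120 * EE k + 1))) (KB k))

abbrev HH (k : ℕ) := Wr (Multiplicative (ZMod (120 * EE k + 1))) (KB k)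

theorem card_pos (k : ℕ) : 0 < Nat.card (HH k) := by
  have := (p2k k).fin
  rw [SemidirectProduct.card]
  exact Nat.mul_pos Nat.card_pos Nat.card_pos

theorem ee_pos (k : ℕ) : 0 < EE k := by
  induction k with
  | zero => exact one_pos
  | succ k ih => exact Nat.mul_pos ih (card_pos k)

theorem ee_dvd {j k : ℕ} (h : j < k) : Nat.card (HH j) ∣ EE k := by
  induction h with
  | refl => exact dvd_mul_left _ _
  | step _ ih => exact ih.mul_right _

theorem indep : ∃ (H : ℕ → Type) (_ : ∀ n, Group (H n)) (U : ℕ → FreeGroup ℕ),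
    (∀ j k, j ≠ k → ∀ φ : FreeGroup ℕ →* H j, φ (U k) = 1) ∧
    ∀ k, ∃ φ : FreeGroup ℕ →* H k, φ (U k) ^ 60 ≠ 1 := by
  refine ⟨HH, inferInstance, fun k => ww (k + 2) FreeGroup.of ^ EE k, fun j k h φ => ?_,
    fun k => ?_⟩
  · rw [map_pow, map_ww]
    rcases h.lt_or_gt with h | h
    · exact orderOf_dvd_iff_pow_eq_one.1 ((orderOf_dvd_natCard _).trans (ee_dvd h))
    · rw [law2 (law1 (by omega)), one_pow]
  · obtain ⟨x, hx⟩ := non1 k
    obtain ⟨y, hy⟩ := non2 (120 * EE k + 1) x hx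
    refine ⟨FreeGroup.lift y, fun e => ?_⟩
    simp only [map_pow, map_ww, FreeGroup.lift_apply_of, ← pow_mul] at e
    have := ee_pos k
    have := Nat.le_of_dvd (by omega) (hy _ e)
    omega

section
variable {S Q : Type} [Group S] [Group Q] [IsSimpleGroup S]

theorem mono [DecidableEq Q] (hS : ∀ a : S, a ≠ 1 → ∃ b, a * b ≠ b * a) (N : Subgroup (Wr S Q))
    [hN : N.Normal] {a : Wr S Q} (ha : a ∈ N) (h1 : a ≠ 1) (s : S) :
    inl (Pi.mulSingle 1 s) ∈ N := by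
  have cm : ∀ a ∈ N, ∀ g, ⁅a, g⁆ ∈ N := fun a ha g => by
    rw [commutatorElement_def, mul_assoc, mul_assoc, ← mul_assoc g]
    exact N.mul_mem ha (hN.conj_mem _ (N.inv_mem ha) g)
  have h2 : ∃ f : Q → S, inl f ∈ N ∧ f 1 ≠ 1 := by
    by_cases h : a.right = 1
    · obtain ⟨f, rfl⟩ := ex_inl a h
      obtain ⟨q, hq⟩ := Function.ne_iff.1 fun e : f = 1 => h1 (e ▸ map_one _)
      exact ⟨mulAutArrow q⁻¹ f, by rw [inl_aut, map_inv inr q⁻¹]; exact hN.conj_mem _ ha _,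
        by rw [arr, inv_inv, mul_one]; exact hq⟩
    · obtain ⟨b, hb⟩ := exists_ne (1 : S)
      obtain ⟨f, hf⟩ := ex_inl ⁅a, (inl (Pi.mulSingle 1 b) : Wr S Q)⁆
        (by simp [commutatorElement_def])
      refine ⟨f, hf ▸ cm a ha _, fun e => hb ?_⟩
      have := congrFun (congrArg SemidirectProduct.left hf) 1
      simpa [commutatorElement_def, h, -mulAutArrow_apply_apply, arr, e] using this
  obtain ⟨f, hf, h3⟩ := h2
  obtain ⟨b, hb⟩ := hS _ h3
  let ι : S →* Wr S Q := inl.comp (MonoidHom.mulSingle (fun _ : Q => S) 1)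
  rcases (hN.comap ι).eq_bot_or_eq_top with h | h
  · refine (hb (commutatorElement_eq_one_iff_mul_comm.1 ?_)).elim
    rw [← Subgroup.mem_bot, ← h]
    have : ι ⁅f 1, b⁆ = ⁅(inl f : Wr S Q), (inl (Pi.mulSingle 1 b) : Wr S Q)⁆ := by
      rw [← map_commutatorElement]
      refine congrArg inl (funext fun q => ?_)
      by_cases hq : q = 1 <;> simp [hq, commutatorElement_def]
    exact Subgroup.mem_comap.2 (this ▸ cm _ hf _)
  · exact (h ▸ Subgroup.mem_top s : s ∈ N.comap ι)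

theorem prime (hS : ∀ a : S, a ≠ 1 → ∃ b, a * b ≠ b * a) {a b : Wr S Q} (ha : a ≠ 1)
    (hb : b ≠ 1) : ∃ g, ⁅a, g * b * g⁻¹⁆ ≠ 1 := by
  classical
  by_contra! h
  obtain ⟨s, hs⟩ := exists_ne (1 : S)
  obtain ⟨t, ht⟩ := hS s hs
  have h1 : a ∈ Subgroup.centralizer (Subgroup.normalClosure {b} : Set (Wr S Q)) := by
    rw [Subgroup.normalClosure, Subgroup.centralizer_closure]
    intro c hc
    obtain ⟨_, rfl, g, hg⟩ := Group.mem_conjugatesOfSet_iff.1 hc
    obtain ⟨g, rfl⟩ := isConj_iff.1 ⟨g, hg⟩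
    exact (commutatorElement_eq_one_iff_mul_comm.1 (h g)).symm
  have := mono hS _ h1 ha t _ (mono hS (Subgroup.normalClosure {b})
    (Subgroup.subset_normalClosure (Set.mem_singleton b)) hb s)
  rw [← map_mul, ← map_mul] at this
  exact ht (by simpa using congrFun (inl_injective this) 1)

end

theorem a5 (a : alternatingGroup (Fin 5)) (h : a ≠ 1) : ∃ b, a * b ≠ b * a := by
  by_contra! k
  rcases (inferInstance : (Subgroup.center (alternatingGroup (Fin 5))).Normal).eq_bot_or_eq_top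
    with e | e
  · exact h (Subgroup.mem_bot.1 (e ▸ Subgroup.mem_center_iff.2 fun g => (k g).symm))
  · have := Subgroup.mem_center_iff.1 (e ▸ Subgroup.mem_top
      (⟨Equiv.swap 0 1 * Equiv.swap 1 2, by simp⟩ : alternatingGroup (Fin 5)))
      ⟨Equiv.swap 0 1 * Equiv.swap 1 3, by simp⟩
    exact absurd (congrArg Subtype.val this) (by decide)

abbrev FI (M : Subgroup (FreeGroup ℕ)) : Prop :=
  ∀ φ : FreeGroup ℕ →* FreeGroup ℕ, ∀ w ∈ M, φ w ∈ M

theorem FI.normal {M : Subgroup (FreeGroup ℕ)} (h : FI M) : M.Normal :=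
  ⟨fun w hw g => h (MulAut.conj g).toMonoidHom w hw⟩

theorem FI.sup {M N : Subgroup (FreeGroup ℕ)} (h : FI M) (k : FI N) : FI (M ⊔ N) := fun φ _ hw =>
  (sup_le (fun w hw => Subgroup.mem_sup_left (h φ w hw))
    (fun w hw => Subgroup.mem_sup_right (k φ w hw)) : M ⊔ N ≤ (M ⊔ N).comap φ) hw

section
variable {G : Type} [Group G] {T : Type} (R : T → Subgroup G)

def Law (P : T → Prop) : Subgroup (FreeGroup ℕ) where
  carrier := {f | ∀ t, P t → ∀ φ : FreeGroup ℕ →* G, (∀ w, φ w ∈ R t) → φ f = 1}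
  one_mem' _ _ φ _ := map_one φ
  mul_mem' h k t ht φ e := by rw [map_mul, h t ht φ e, k t ht φ e, mul_one]
  inv_mem' h t ht φ e := by rw [map_inv, h t ht φ e, inv_one]

theorem law_fi (P : T → Prop) : FI (Law R P) := fun ψ _ hw t ht φ e =>
  hw t ht (φ.comp ψ) fun _ => e _

theorem meet (hp : ∀ a b : G, a ≠ 1 → b ≠ 1 → ∃ g, ⁅a, g * b * g⁻¹⁆ ≠ 1) (N : Subgroup G)
    [hN : N.Normal] {M W : Subgroup (FreeGroup ℕ)} (hM : FI M) (hW : FI W) {f g : FreeGroup ℕ}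
    (hf : f ∈ M) (hg : g ∈ W) (φ ψ : FreeGroup ℕ →* G) (h1 : ∀ w, φ w ∈ N) (h2 : ∀ w, ψ w ∈ N)
    (k1 : φ f ≠ 1) (k2 : ψ g ≠ 1) :
    ∃ u ∈ M ⊓ W, ∃ χ : FreeGroup ℕ →* G, (∀ w, χ w ∈ N) ∧ χ u ≠ 1 := by
  obtain ⟨c, hc⟩ := hp _ _ k1 k2
  have := hM.normal
  have := hW.normal
  let χ : FreeGroup ℕ →* G := FreeGroup.lift fun n =>
    if n % 2 = 0 then φ (.of (n / 2)) else c * ψ (.of (n / 2)) * c⁻¹
  have e1 : χ.comp (FreeGroup.map (2 * ·)) = φ := FreeGroup.ext_hom _ _ fun n => by simp [χ]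
  have e2 : χ.comp (FreeGroup.map (2 * · + 1)) = (MulAut.conj c).toMonoidHom.comp ψ :=
    FreeGroup.ext_hom _ _ fun n => by simp [χ, show (2 * n + 1) / 2 = n by omega]
  refine ⟨⁅FreeGroup.map (2 * ·) f, FreeGroup.map (2 * · + 1) g⁆, Subgroup.commutator_le_inf M W
    (Subgroup.commutator_mem_commutator (hM _ _ hf) (hW _ _ hg)), χ, fun w => ?_, ?_⟩
  · refine FreeGroup.range_lift_le (s := N) ?_ ⟨w, rfl⟩
    rintro _ ⟨n, rfl⟩
    dsimp only
    split_ifs
    exacts [h1 _, hN.conj_mem _ (h2 _) _]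
  · rw [map_commutatorElement, ← MonoidHom.comp_apply, ← MonoidHom.comp_apply, e1, e2]
    exact hc

end

theorem split : ∃ A : Subgroup (FreeGroup ℕ), FI A ∧ A ≠ ⊤ ∧ ∀ M, FI M → ¬ M ≤ A →
    ∃ W₀ W₁, FI W₀ ∧ FI W₁ ∧ A ≤ W₀ ∧ A ≤ W₁ ∧ W₀ ⊓ W₁ ≤ A ∧ ¬ M ⊓ W₀ ≤ A ∧ ¬ M ⊓ W₁ ≤ A := by
  classical
  obtain ⟨H, _, U, h1, h2⟩ := indep
  let G := Wr (alternatingGroup (Fin 5)) (∀ n, H n)
  let R : Finset ℕ → Subgroup G := fun t =>
    (Subgroup.pi (t : Set ℕ)ᶜ fun _ => ⊥).comap (rightHom : G →* _)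
  have hR : ∀ t (g : G), g ∈ R t ↔ ∀ n ∉ t, g.right n = 1 := fun t g => by
    simp [R, Subgroup.mem_pi]; rfl
  have hn : ∀ t, (R t).Normal := fun t => ⟨fun a ha g => (hR _ _).2 fun n hn => by
    show g.right n * a.right n * (g.right n)⁻¹ = 1
    simp [(hR _ _).1 ha n hn]⟩
  let P : Finset ℕ → Prop := fun t => ∀ j, 2 * j ∈ t → 2 * j + 1 ∉ t
  refine ⟨Law R P, law_fi R P, fun e => ?_, fun M hM h => ?_⟩
  · obtain ⟨s, hs⟩ := exists_ne (1 : alternatingGroup (Fin 5))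
    have := (e ▸ Subgroup.mem_top (FreeGroup.of 0) : _ ∈ Law R P) ∅ (by simp [P])
      (inl.comp (FreeGroup.lift fun _ _ => s)) fun w => (hR _ _).2 fun _ _ => rfl
    exact hs (by simpa using congrFun (congrArg SemidirectProduct.left this) 1)
  obtain ⟨f, hf, k⟩ := SetLike.not_le_iff_exists.1 h
  obtain ⟨t, ht, φ, k1, k2⟩ : ∃ t, P t ∧ ∃ φ : FreeGroup ℕ →* G, (∀ w, φ w ∈ R t) ∧ φ f ≠ 1 := by
    by_contra! c; exact k c
  obtain ⟨j, hj⟩ := t.exists_nat_subset_range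
  have key : ∀ m, P (insert m t) → ¬ M ⊓ Law R (fun t => P t ∧ m ∉ t) ≤ Law R P := fun m hm c => by
    obtain ⟨ψ, hψ⟩ := h2 m
    have := hn (insert m t)
    obtain ⟨u, hu, χ, a, b⟩ := meet (fun _ _ => prime a5) (R (insert m t)) hM
      (law_fi R fun t => P t ∧ m ∉ t) hf (g := U m ^ 60) (fun s hs ρ e => by
        obtain ⟨z, hz⟩ := ex_inl (ρ (U m)) (funext fun n => by
          by_cases hn : n ∈ s
          · exact h1 n m (fun e => hs.2 (e ▸ hn))
              ((Pi.evalMonoidHom H n).comp (rightHom.comp ρ))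
          · exact (hR _ _).1 (e _) n hn)
        rw [map_pow, hz, ← map_pow, map_eq_one_iff _ inl_injective]
        ext1 q
        exact (show Nat.card (alternatingGroup (Fin 5)) = 60 by
          rw [nat_card_alternatingGroup]; simp [Nat.factorial]) ▸ pow_card_eq_one') φ
      (inr.comp ((MonoidHom.mulSingle H m).comp ψ))
      (fun w => (hR _ _).2 fun n hn => (hR _ _).1 (k1 w) n fun e => hn (by simp [e]))
      (fun w => (hR _ _).2 fun n hn => Pi.mulSingle_eq_of_ne (fun e => hn (by simp [e])) _) k2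
      fun e => hψ (by simpa using congrFun (congrArg SemidirectProduct.right e) m)
    exact b (c hu _ hm χ a)
  have hj' : ∀ n ∈ t, n < j := fun n hn => Finset.mem_range.1 (hj hn)
  refine ⟨_, _, law_fi R _, law_fi R _, fun _ h s hs => h s hs.1, fun _ h s hs => h s hs.1,
    fun w hw s hs => ?_, key (2 * j) fun i a b => ?_, key (2 * j + 1) fun i a b => ?_⟩
  · by_cases c : 2 * j ∈ s
    exacts [hw.2 s ⟨hs, hs j c⟩, hw.1 s ⟨hs, c⟩]
  all_goals
    rcases Finset.mem_insert.1 a with a | a <;> rcases Finset.mem_insert.1 b with b | b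
    · omega
    · have := hj' _ b; omega
    · have := hj' _ a; omega
    · exact ht i a b

end Pool.Agent.H.MP_e13a39_al
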